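import Pool.Agent.H39.Newt3.Base

/-!
# Project NEWTON3, module INB: removal of denominators without poles
-/

set_option autoImplicit false

namespace Pool.Newt3

open Pool.Newt Pool.Newt2

namespace InbAux

open Polynomial

/-- the denominators over the complex numbers -/
noncomputable def dC (x : ℝ) (W : Multiset (ℕ × ℕ)) : ℂ[X] :=
  (W.map fun p => 1 - C ((x : ℂ)⁻¹ ^ p.1) * X ^ p.2).prod

theorem dC_cons (x : ℝ) (p : ℕ × ℕ) (W : Multiset (ℕ × ℕ)) :
    dC x (p ::ₘ W) = (1 - C ((x : ℂ)⁻¹ ^ p.1) * X ^ p.2) * dC x W := by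
  unfold dC
  rw [Multiset.map_cons, Multiset.prod_cons]

theorem ev_T (x : ℝˣ) (n : ℕ) :
    (Complex.ofRealHom.comp (ev x)) (LaurentPolynomial.T (-(n : ℤ))) = ((x : ℝ) : ℂ)⁻¹ ^ n := by
  rw [RingHom.comp_apply]
  unfold ev
  rw [LaurentPolynomial.eval₂_T_neg_n, Units.val_inv_eq_inv_val]
  show ((((x : ℝ)⁻¹ ^ n : ℝ)) : ℂ) = _
  push_cast
  rfl

theorem map_dP (x : ℝˣ) (W : Multiset (ℕ × ℕ)) :
    PowerSeries.map (Complex.ofRealHom.comp (ev x)) (dP W) =
      ((dC x W : ℂ[X]) : PowerSeries ℂ) := by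
  induction W using Multiset.induction_on with
  | empty =>
    unfold dP dC
    rw [Multiset.map_zero, Multiset.prod_zero, Multiset.map_zero, Multiset.prod_zero, map_one,
      Polynomial.coe_one]
  | cons p W ih =>
    rw [dC_cons, Polynomial.coe_mul, ← ih]
    unfold dP
    rw [Multiset.map_cons, Multiset.prod_cons, map_mul, map_sub, map_one, map_mul,
      PowerSeries.map_C, map_pow, PowerSeries.map_X, ev_T, Polynomial.coe_sub, Polynomial.coe_one,
      Polynomial.coe_mul, Polynomial.coe_C, Polynomial.coe_pow, Polynomial.coe_X]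

theorem pl_of {A : PowerSeries ℂ} {N0 : ℕ} (h : ∀ N, N0 ≤ N → PowerSeries.coeff N A = 0) :
    ∃ p : ℂ[X], A = (p : PowerSeries ℂ) := by
  refine ⟨PowerSeries.trunc N0 A, ?_⟩
  ext n
  rw [Polynomial.coeff_coe, PowerSeries.coeff_trunc]
  split_ifs with hn
  · rfl
  · exact h n (not_lt.1 hn)

theorem last {p : ℂ[X]} {N0 N : ℕ} {a : ℂ} (ha : a ≠ 0) (hN : 0 < N)
    (h : ∀ k, N0 ≤ k → PowerSeries.coeff k
      (((1 - C a * X ^ N : ℂ[X]) : PowerSeries ℂ) * (p : PowerSeries ℂ)) = 0) :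
    ∀ k, N0 ≤ k → PowerSeries.coeff k (p : PowerSeries ℂ) = 0 := by
  have key : ∀ j k, N0 ≤ k → p.natDegree < k + j →
      PowerSeries.coeff k (p : PowerSeries ℂ) = 0 := by
    intro j
    induction j with
    | zero =>
      intro k _ hk
      rw [Polynomial.coeff_coe]
      exact Polynomial.coeff_eq_zero_of_natDegree_lt (by omega)
    | succ j ih =>
      intro k hk hd
      have h1 := h (k + N) (by omega)
      have h2 := ih (k + N) (by omega) (by omega)
      rw [Polynomial.coe_sub, Polynomial.coe_one, Polynomial.coe_mul, Polynomial.coe_C,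
        Polynomial.coe_pow, Polynomial.coe_X, sub_mul, one_mul, map_sub, h2, mul_assoc,
        PowerSeries.coeff_C_mul, PowerSeries.coeff_X_pow_mul, zero_sub, neg_eq_zero] at h1
      exact (mul_eq_zero.1 h1).resolve_left ha
  intro k hk
  exact key (p.natDegree + 1) k hk (by omega)

/-- the zeros of the factor lie on the circle -/
theorem cop {x : ℝ} (hx : 1 < x) {p : ℕ × ℕ} (hp : 0 < p.2) {E : ℂ[X]}
    (hE : ∀ z : ℂ, ‖z‖ = x ^ ((p.1 : ℝ) / (p.2 : ℝ)) → E.eval z ≠ 0) :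
    IsCoprime (1 - C ((x : ℂ)⁻¹ ^ p.1) * X ^ p.2 : ℂ[X]) E := by
  rw [Polynomial.isCoprime_iff_aeval_ne_zero_of_isAlgClosed ℂ ℂ]
  intro z
  by_cases hz : ‖z‖ = x ^ ((p.1 : ℝ) / (p.2 : ℝ))
  · right
    rw [Polynomial.coe_aeval_eq_eval]
    exact hE z hz
  · left
    rw [Polynomial.coe_aeval_eq_eval]
    have hx0 : 0 < x := by linarith
    intro h0
    rw [Polynomial.eval_sub, Polynomial.eval_one, Polynomial.eval_mul, Polynomial.eval_C,
      Polynomial.eval_pow, Polynomial.eval_X, sub_eq_zero] at h0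
    apply hz
    have h1 : ‖((x : ℂ)⁻¹ ^ p.1 * z ^ p.2)‖ = 1 := by rw [← h0, norm_one]
    rw [norm_mul, norm_pow, norm_inv, norm_pow, Complex.norm_real, Real.norm_eq_abs,
      abs_of_pos hx0] at h1
    have h5 : x ^ p.1 ≠ 0 := (pow_pos hx0 _).ne'
    have h2 : ‖z‖ ^ p.2 = x ^ p.1 := by
      rw [inv_pow] at h1
      field_simp at h1
      exact h1
    have h3 : (‖z‖ ^ p.2) ^ ((p.2 : ℝ)⁻¹) = ‖z‖ :=
      Real.pow_rpow_inv_natCast (norm_nonneg z) hp.ne'
    rw [← h3, h2, ← Real.rpow_natCast x p.1, ← Real.rpow_mul hx0.le, div_eq_mul_inv]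

theorem step {x : ℝ} (hx : 1 < x) {Φ : PowerSeries ℂ} {p : ℕ × ℕ} {W : Multiset (ℕ × ℕ)}
    {N0 : ℕ} (hp : 0 < p.2)
    (h1 : ∀ N, N0 ≤ N → PowerSeries.coeff N
      (((dC x (p ::ₘ W) : ℂ[X]) : PowerSeries ℂ) * Φ) = 0)
    (h2 : RegC (x ^ ((p.1 : ℝ) / (p.2 : ℝ))) Φ) :
    ∀ N, N0 ≤ N → PowerSeries.coeff N (((dC x W : ℂ[X]) : PowerSeries ℂ) * Φ) = 0 := by
  have hx0 : 0 < x := by linarith
  obtain ⟨B, hB⟩ := pl_of h1
  obtain ⟨E, hE0, NJ, hE1⟩ := h2
  obtain ⟨F, hF⟩ := pl_of hE1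
  obtain ⟨s, t, hst⟩ := cop hx hp hE0
  have hA : ((dC x W : ℂ[X]) : PowerSeries ℂ) * Φ =
      ((s * B + t * (dC x W * F) : ℂ[X]) : PowerSeries ℂ) := by
    have h3 : (s : PowerSeries ℂ) *
        ((1 - C ((x : ℂ)⁻¹ ^ p.1) * X ^ p.2 : ℂ[X]) : PowerSeries ℂ) +
        (t : PowerSeries ℂ) * (E : PowerSeries ℂ) = 1 := by
      rw [← Polynomial.coe_mul, ← Polynomial.coe_mul, ← Polynomial.coe_add, hst,
        Polynomial.coe_one]
    rw [Polynomial.coe_add, Polynomial.coe_mul, Polynomial.coe_mul, Polynomial.coe_mul, ← hB,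
      ← hF, dC_cons, Polynomial.coe_mul]
    calc ((dC x W : ℂ[X]) : PowerSeries ℂ) * Φ =
        ((s : PowerSeries ℂ) *
          ((1 - C ((x : ℂ)⁻¹ ^ p.1) * X ^ p.2 : ℂ[X]) : PowerSeries ℂ) +
          (t : PowerSeries ℂ) * (E : PowerSeries ℂ)) *
          (((dC x W : ℂ[X]) : PowerSeries ℂ) * Φ) := by rw [h3, one_mul]
      _ = _ := by ring
  rw [hA]
  have hxc : (x : ℂ) ≠ 0 := by exact_mod_cast hx0.ne'
  refine last (pow_ne_zero p.1 (inv_ne_zero hxc)) hp fun k hk => ?_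
  rw [← hA, ← mul_assoc, ← Polynomial.coe_mul, ← dC_cons]
  exact h1 k hk

end InbAux

open InbAux Polynomial in
open Classical in
theorem sInb (hL : SLpz) : SInb := by
  intro Φ W N0 B
  induction W using Multiset.strongInductionOn with
  | ih W ih =>
    intro hW h1 h2
    by_cases hc : ∀ p ∈ W, p ∉ B
    · rw [Multiset.filter_eq_self.2 hc]
      intro N hN
      refine hL _ fun x hx => ?_
      have := h1 x hx N hN
      rwa [PowerSeries.coeff_map] at this
    · push Not at hc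
      obtain ⟨p, hp, hpB⟩ := hc
      obtain ⟨W1, rfl⟩ := Multiset.exists_cons_of_mem hp
      have h6 := ih W1 (Multiset.lt_cons_self _ _)
        (fun q hq => hW q (Multiset.mem_cons_of_mem hq)) (fun x hx => by
          have h5 : ∀ N, N0 ≤ N → PowerSeries.coeff N
              (((dC x (p ::ₘ W1) : ℂ[X]) : PowerSeries ℂ) *
                PowerSeries.map (Complex.ofRealHom.comp (ev x)) Φ) = 0 := by
            intro N hN
            rw [← map_dP, ← map_mul, PowerSeries.coeff_map, RingHom.comp_apply]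
            have := h1 x hx N hN
            rw [PowerSeries.coeff_map] at this
            rw [this, map_zero]
          intro N hN
          have h7 := step hx (hW p (Multiset.mem_cons_self p W1)) h5
            (h2 p (Multiset.mem_cons_self p W1) hpB x hx) N hN
          rw [← map_dP, ← map_mul, PowerSeries.coeff_map, RingHom.comp_apply] at h7
          rw [PowerSeries.coeff_map]
          exact (map_eq_zero Complex.ofRealHom).1 h7)
        (fun q hq => h2 q (Multiset.mem_cons_of_mem hq))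
      rwa [Multiset.filter_cons_of_neg (p := fun p => p ∉ B) W1 (not_not.2 hpB)]

end Pool.Newt3
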